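import Mathlib
import Pool.Agent.H940R2.Defs
import Pool.Agent.H940R2.Count
import Pool.Agent.H940R2.Sanity

/-!
# The normality conjecture for asymptotic Betti numbers fails

For `X = ℙ³ × ℙ¹` (dimension `n = 4`), `A = 𝒪(1,1)`, `P = 𝒪`, so `L_d = 𝒪(d,d)`, and `q = 4`,
no function `F(d)` rescales the Betti numbers `k_{p,4}(X; L_d)` to the Gaussian shape.
-/

namespace Pool.Agent.Results.MP_7b2bd6_ag.NormalityFails

open Filter Topology Pool.Agent.H940R2

lemma h0_ge (d : ℕ) : d + 1 ≤ h0 d := by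
  rw [h0_eq]
  have h : 0 < NN d := by
    rw [NN_eq]
    exact Nat.choose_pos (by omega)
  exact Nat.le_mul_of_pos_right _ h

lemma tendsto_rr : Tendsto (fun d => Real.sqrt (rr d)) atTop atTop := by
  refine Real.tendsto_sqrt_atTop.comp ?_
  refine tendsto_atTop_mono (fun d => ?_) tendsto_natCast_atTop_atTop
  have h : ((d + 1 : ℕ) : ℝ) ≤ h0 d := by exact_mod_cast h0_ge d
  push_cast at h
  rw [rr]
  linarith

/-- the middle exterior degree on the dual side -/
noncomputable def mid (d : ℕ) : ℕ := h0 d / 2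

lemma room {d : ℕ} (hd : 10 ≤ d) : mid d + ss d + 5 ≤ h0 d := by
  have h1 : (3000 : ℝ) ≤ h0 d := h0_pos hd
  have h1' : 3000 ≤ h0 d := by exact_mod_cast h1
  have h2 : (ss d : ℝ) ≤ Real.sqrt (rr d) := Nat.floor_le (Real.sqrt_nonneg _)
  have h3 : (ss d : ℝ) ^ 2 ≤ rr d := by
    have h4 : 0 ≤ rr d := by rw [rr]; linarith
    calc (ss d : ℝ) ^ 2 ≤ Real.sqrt (rr d) ^ 2 := by
          exact pow_le_pow_left₀ (Nat.cast_nonneg _) h2 2
      _ = rr d := Real.sq_sqrt h4
  have h4 : (ss d : ℝ) ^ 2 ≤ h0 d := by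
    rw [rr] at h3
    linarith
  have h5 : ss d ^ 2 ≤ h0 d := by exact_mod_cast h4
  rw [mid]
  by_cases h6 : ss d ≤ 7
  · omega
  · have h7 : 7 * ss d ≤ ss d ^ 2 := by
      rw [sq]
      exact Nat.mul_le_mul_right _ (by omega)
    omega

lemma k0 {d : ℕ} (hd : 10 ≤ d) : (kpq d (h0 d - 5 - mid d) 4 : ℝ) = kap d (mid d) := by
  have h := room hd
  rw [kpq_eq_KK (p' := mid d) (by omega) (by omega), kap]

lemma k1 {d : ℕ} (hd : 10 ≤ d) :
    (kpq d (h0 d - 5 - mid d - ss d) 4 : ℝ) = kap d (mid d + ss d) := by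
  have h := room hd
  rw [kpq_eq_KK (p' := mid d + ss d) (by omega) (by omega), kap]

lemma decay {d : ℕ} (hd : 10 ≤ d) :
    kap d (mid d + ss d) ≤ Real.exp (-3) * kap d (mid d) := by
  have h1 := h0_pos hd
  have hD : (0 : ℝ) < h0 d := by linarith
  have h2 : (h0 d : ℝ) - 1 ≤ 2 * (mid d : ℕ) := by
    have : h0 d ≤ 2 * mid d + 1 := by rw [mid]; omega
    have : (h0 d : ℝ) ≤ 2 * mid d + 1 := by exact_mod_cast this
    linarith
  have h3 := iter hd h2 (ss d)
  refine h3.trans (mul_le_mul_of_nonneg_right ?_ (kap_nonneg _ _))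
  have h4 : 1 - mu d / h0 d ≤ Real.exp (-(mu d / h0 d)) := by
    have := Real.add_one_le_exp (-(mu d / h0 d))
    linarith
  have h5 : 0 ≤ 1 - mu d / h0 d := by
    rw [sub_nonneg, div_le_one hD]
    exact mu_le hd
  calc (1 - mu d / h0 d) ^ ss d ≤ Real.exp (-(mu d / h0 d)) ^ ss d :=
        pow_le_pow_left₀ h5 h4 _
    _ = Real.exp (ss d * (-(mu d / h0 d))) := by rw [← Real.exp_nat_mul]
    _ ≤ Real.exp (-3) := by
        apply Real.exp_le_exp.mpr
        have h6 := three_le hd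
        have h7 : 3 ≤ (mu d * ss d) / h0 d := by
          rw [le_div_iff₀ hD]
          exact h6
        have h8 : (ss d : ℝ) * (-(mu d / h0 d)) = -((mu d * ss d) / h0 d) := by ring
        rw [h8]
        linarith

lemma lim0 : Tendsto (fun d => (2 * ((h0 d - 5 - mid d : ℕ) : ℝ) - rr d) / Real.sqrt (rr d))
    atTop (𝓝 0) := by
  have h9 : Tendsto (fun d => 9 / Real.sqrt (rr d)) atTop (𝓝 0) :=
    tendsto_rr.const_div_atTop 9
  apply squeeze_zero_norm' _ h9
  filter_upwards [eventually_ge_atTop 10] with d hd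
  have h := room hd
  have hpos : 0 ≤ Real.sqrt (rr d) := Real.sqrt_nonneg _
  rw [Real.norm_eq_abs, abs_div, abs_of_nonneg hpos]
  apply div_le_div_of_nonneg_right _ hpos
  have h1 : (((h0 d - 5 - mid d : ℕ) : ℝ)) = h0 d - 5 - mid d := by
    rw [Nat.cast_sub (by omega), Nat.cast_sub (by omega)]
    norm_num
  rw [h1, rr, abs_le]
  have h2 : (h0 d : ℝ) ≤ 2 * mid d + 1 := by
    have : h0 d ≤ 2 * mid d + 1 := by rw [mid]; omega
    exact_mod_cast this
  have h3 : 2 * (mid d : ℝ) ≤ h0 d := by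
    have : 2 * mid d ≤ h0 d := by rw [mid]; omega
    exact_mod_cast this
  constructor <;> linarith

lemma lim1 : Tendsto (fun d => (2 * ((h0 d - 5 - mid d - ss d : ℕ) : ℝ) - rr d) /
    Real.sqrt (rr d)) atTop (𝓝 (-2)) := by
  have h1 : Tendsto (fun d => (ss d : ℝ) / Real.sqrt (rr d)) atTop (𝓝 1) :=
    (tendsto_nat_floor_div_atTop (R := ℝ)).comp tendsto_rr
  have h2 := lim0.sub (h1.const_mul 2)
  have h3 : (0 : ℝ) - 2 * 1 = -2 := by norm_num
  rw [h3] at h2
  refine h2.congr' ?_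
  filter_upwards [eventually_ge_atTop 10] with d hd
  have h := room hd
  have h4 : (((h0 d - 5 - mid d - ss d : ℕ) : ℝ)) = ((h0 d - 5 - mid d : ℕ) : ℝ) - ss d := by
    rw [Nat.cast_sub (by omega)]
  rw [h4]
  ring

/-- **Disproof of the normality conjecture.** There is no function `F` with
`F(d) k_{p_d,4}(ℙ³ × ℙ¹; 𝒪(d,d)) → e^{-a²/2}` for every real `a` and every sequence `(p_d)` with
`(2 p_d - r_d)/√r_d → a`. -/
theorem result : ¬ ∃ F : ℕ → ℝ, ∀ (a : ℝ) (p : ℕ → ℕ),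
    Tendsto (fun d => (2 * (p d : ℝ) - rr d) / Real.sqrt (rr d)) atTop (𝓝 a) →
    Tendsto (fun d => F d * (kpq d (p d) 4 : ℝ)) atTop (𝓝 (Real.exp (-a ^ 2 / 2))) := by
  rintro ⟨F, hF⟩
  have h0' := hF 0 _ lim0
  have h1' := hF (-2) _ lim1
  have e0 : Real.exp (-(0 : ℝ) ^ 2 / 2) = 1 := by simp
  have e1 : Real.exp (-(-2 : ℝ) ^ 2 / 2) = Real.exp (-2) := by norm_num
  rw [e0] at h0'
  rw [e1] at h1'
  have h0'' := h0'.const_mul (Real.exp (-3))
  have hpos : ∀ᶠ d in atTop, (1 / 2 : ℝ) < F d * (kpq d (h0 d - 5 - mid d) 4 : ℝ) :=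
    h0'.eventually (lt_mem_nhds (by norm_num))
  have hle : ∀ᶠ d in atTop, F d * (kpq d (h0 d - 5 - mid d - ss d) 4 : ℝ) ≤
      Real.exp (-3) * (F d * (kpq d (h0 d - 5 - mid d) 4 : ℝ)) := by
    filter_upwards [hpos, eventually_ge_atTop 10] with d h1 hd
    rw [k0 hd] at h1 ⊢
    rw [k1 hd]
    have hFpos : 0 ≤ F d := by
      by_contra hneg
      push Not at hneg
      have := mul_nonpos_of_nonpos_of_nonneg hneg.le (kap_nonneg d (mid d))
      linarith
    calc F d * kap d (mid d + ss d) ≤ F d * (Real.exp (-3) * kap d (mid d)) :=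
          mul_le_mul_of_nonneg_left (decay hd) hFpos
      _ = _ := by ring
  have hfin := le_of_tendsto_of_tendsto h1' h0'' hle
  rw [mul_one] at hfin
  have := Real.exp_le_exp.mp hfin
  norm_num at this

end Pool.Agent.Results.MP_7b2bd6_ag.NormalityFails
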